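import Mathlib

/-!
# MP_b44c21_co: largest induced bipartite subgraphs, average eccentricity and neighbourhood
independence

For every finite connected graph, `b(G) ≥ ⌊ē(G) + L(G)⌋`.
-/

namespace Pool.Agent.Results.MP_b44c21_co.BipartiteBound

variable {V : Type} [Fintype V]

/-- The eccentricity of a vertex: the largest distance to a vertex. -/
noncomputable def ecc (G : SimpleGraph V) (v : V) : ℕ := Finset.univ.sup fun u => G.dist v u

/-- The average eccentricity. -/
noncomputable def avgEcc (G : SimpleGraph V) : ℝ := (∑ v, (ecc G v : ℝ)) / Fintype.card V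

/-- The independence number of the subgraph induced on the neighbourhood of `v`. -/
noncomputable def localIndep (G : SimpleGraph V) (v : V) : ℕ :=
  (G.induce (G.neighborSet v)).indepNum

/-- The largest local independence number. -/
noncomputable def maxLocalIndep (G : SimpleGraph V) : ℕ := Finset.univ.sup fun v => localIndep G v

/-- The largest order of an induced bipartite subgraph. -/
noncomputable def bipartiteNumber (G : SimpleGraph V) : ℕ :=
  sSup {k | ∃ S : Finset V, (G.induce (S : Set V)).IsBipartite ∧ S.card = k}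

lemma le_bipartiteNumber (G : SimpleGraph V) (S : Finset V)
    (hS : (G.induce (S : Set V)).IsBipartite) : S.card ≤ bipartiteNumber G := by
  apply le_csSup
  · refine ⟨Fintype.card V, ?_⟩
    rintro k ⟨T, _, rfl⟩
    exact Finset.card_le_univ T
  · exact ⟨S, hS, rfl⟩

/-- If no two adjacent vertices of `S` are at the same distance from `v`, then `S` induces a
bipartite graph. -/
lemma bipartite_of_levels (G : SimpleGraph V) (hG : G.Connected) (v : V) (S : Finset V)
    (h : ∀ a ∈ S, ∀ b ∈ S, G.Adj a b → G.dist v a ≠ G.dist v b) :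
    (G.induce (S : Set V)).IsBipartite := by
  refine ⟨SimpleGraph.Coloring.mk (fun a => (⟨G.dist v a % 2, by omega⟩ : Fin 2)) ?_⟩
  intro a b hab heq
  have hadj : G.Adj a b := hab
  have h1 := h a a.2 b b.2 hadj
  have h2 : G.dist (a : V) b = 1 := SimpleGraph.dist_eq_one_iff_adj.2 hadj
  have h3 : G.dist (b : V) a = 1 := SimpleGraph.dist_eq_one_iff_adj.2 hadj.symm
  have h4 := hG.dist_triangle (u := v) (v := a) (w := b)
  have h5 := hG.dist_triangle (u := v) (v := b) (w := a)
  have h6 : G.dist v a % 2 = G.dist v b % 2 := by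
    have := congrArg Fin.val heq
    simpa using this
  omega

/-- Vertices on a geodesic. -/
lemma exists_on_geo (G : SimpleGraph V) (hG : G.Connected) (v w : V) (p : ℕ)
    (hp : p ≤ G.dist v w) : ∃ u, G.dist v u = p ∧ G.dist u w = G.dist v w - p := by
  obtain ⟨P, hP⟩ := hG.exists_walk_length_eq_dist v w
  refine ⟨P.getVert p, ?_⟩
  have h1 := SimpleGraph.dist_le (P.take p)
  have h2 := SimpleGraph.dist_le (P.drop p)
  rw [SimpleGraph.Walk.take_length] at h1
  rw [SimpleGraph.Walk.drop_length] at h2
  have h3 := hG.dist_triangle (u := v) (v := P.getVert p) (w := w)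
  omega

/-- The construction of a large induced bipartite subgraph. -/
lemma main (G : SimpleGraph V) (hG : G.Connected) (v : V) (x y : ℕ → V) (i j τ : ℕ) (hτ : 2 ≤ τ)
    (hx : ∀ p, p ≤ i → G.dist v (x p) = p) (hy : ∀ q, q ≤ j → G.dist v (y q) = q)
    (hxy : ∀ p, τ ≤ p → p ≤ i → p ≤ j → 2 ≤ G.dist (x p) (y p)) :
    1 + localIndep G v + (i - 1) + (j + 1 - τ) ≤ bipartiteNumber G := by
  classical
  obtain ⟨I0, hI0⟩ := (G.induce (G.neighborSet v)).exists_isNIndepSet_indepNum
  set I : Finset V := I0.map (Function.Embedding.subtype _) with hI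
  have hIcard : I.card = localIndep G v := by
    rw [hI, Finset.card_map]
    exact hI0.2
  have hIadj : ∀ a ∈ I, G.Adj v a := by
    intro a ha
    rw [hI, Finset.mem_map] at ha
    obtain ⟨b, _, rfl⟩ := ha
    exact b.2
  have hIind : ∀ a ∈ I, ∀ b ∈ I, ¬ G.Adj a b := by
    intro a ha b hb hab
    rw [hI, Finset.mem_map] at ha hb
    obtain ⟨a', ha', rfl⟩ := ha
    obtain ⟨b', hb', rfl⟩ := hb
    have hne : a' ≠ b' := by
      rintro rfl
      exact G.loopless.irrefl _ hab
    exact hI0.1 (Finset.mem_coe.2 ha') (Finset.mem_coe.2 hb') hne hab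
  have hIdist : ∀ a ∈ I, G.dist v a = 1 := fun a ha =>
    SimpleGraph.dist_eq_one_iff_adj.2 (hIadj a ha)
  set X : Finset V := (Finset.Icc 2 i).image x with hX
  set Y : Finset V := (Finset.Icc τ j).image y with hY
  have hXm : ∀ a ∈ X, ∃ p, 2 ≤ p ∧ p ≤ i ∧ a = x p ∧ G.dist v a = p := by
    intro a ha
    rw [hX, Finset.mem_image] at ha
    obtain ⟨p, hp, rfl⟩ := ha
    rw [Finset.mem_Icc] at hp
    exact ⟨p, hp.1, hp.2, rfl, hx p hp.2⟩
  have hYm : ∀ a ∈ Y, ∃ q, τ ≤ q ∧ q ≤ j ∧ a = y q ∧ G.dist v a = q := by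
    intro a ha
    rw [hY, Finset.mem_image] at ha
    obtain ⟨p, hp, rfl⟩ := ha
    rw [Finset.mem_Icc] at hp
    exact ⟨p, hp.1, hp.2, rfl, hy p hp.2⟩
  have hXcard : X.card = i - 1 := by
    rw [hX, Finset.card_image_of_injOn]
    · simp
    · intro p hp q hq hpq
      rw [Finset.coe_Icc, Set.mem_Icc] at hp hq
      rw [← hx p hp.2, ← hx q hq.2, hpq]
  have hYcard : Y.card = j + 1 - τ := by
    rw [hY, Finset.card_image_of_injOn]
    · simp
    · intro p hp q hq hpq
      rw [Finset.coe_Icc, Set.mem_Icc] at hp hq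
      rw [← hy p hp.2, ← hy q hq.2, hpq]
  have hXY : Disjoint X Y := by
    rw [Finset.disjoint_left]
    intro a haX haY
    obtain ⟨p, h1, h2, h3, h4⟩ := hXm a haX
    obtain ⟨q, h5, h6, h7, h8⟩ := hYm a haY
    have hpq : p = q := by omega
    subst hpq
    have := hxy p h5 h2 h6
    rw [← h3, ← h7, SimpleGraph.dist_self] at this
    omega
  have hIX : Disjoint I (X ∪ Y) := by
    rw [Finset.disjoint_left]
    intro a haI haXY
    have h1 := hIdist a haI
    rcases Finset.mem_union.1 haXY with h | h
    · obtain ⟨p, h2, h3, h4, h5⟩ := hXm a h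
      omega
    · obtain ⟨p, h2, h3, h4, h5⟩ := hYm a h
      omega
  have hv : v ∉ I ∪ (X ∪ Y) := by
    intro hv
    have h0 : G.dist v v = 0 := SimpleGraph.dist_self
    rcases Finset.mem_union.1 hv with h | h
    · have := hIdist v h
      omega
    · rcases Finset.mem_union.1 h with h | h
      · obtain ⟨p, h2, h3, h4, h5⟩ := hXm v h
        omega
      · obtain ⟨p, h2, h3, h4, h5⟩ := hYm v h
        omega
  have hcard : (insert v (I ∪ (X ∪ Y))).card = 1 + localIndep G v + (i - 1) + (j + 1 - τ) := by
    rw [Finset.card_insert_of_notMem hv, Finset.card_union_of_disjoint hIX,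
      Finset.card_union_of_disjoint hXY, hIcard, hXcard, hYcard]
    omega
  rw [← hcard]
  apply le_bipartiteNumber
  apply bipartite_of_levels G hG v
  have hlevel : ∀ a ∈ insert v (I ∪ (X ∪ Y)), (a = v ∧ G.dist v a = 0) ∨ (a ∈ I ∧ G.dist v a = 1) ∨
      (∃ p, 2 ≤ p ∧ p ≤ i ∧ a = x p ∧ G.dist v a = p) ∨
      (∃ q, τ ≤ q ∧ q ≤ j ∧ a = y q ∧ G.dist v a = q) := by
    intro a ha
    rcases Finset.mem_insert.1 ha with rfl | ha
    · left; exact ⟨rfl, SimpleGraph.dist_self⟩
    · rcases Finset.mem_union.1 ha with h | h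
      · right; left; exact ⟨h, hIdist a h⟩
      · rcases Finset.mem_union.1 h with h | h
        · right; right; left; exact hXm a h
        · right; right; right; exact hYm a h
  intro a ha b hb hab hd
  have hne : a ≠ b := hab.ne
  have hd1 : G.dist a b = 1 := SimpleGraph.dist_eq_one_iff_adj.2 hab
  have hd2 : G.dist b a = 1 := SimpleGraph.dist_eq_one_iff_adj.2 hab.symm
  rcases hlevel a ha with ⟨e1, f1⟩ | ⟨e1, f1⟩ | ⟨p, e1, e2, e3, e4⟩ | ⟨p, e1, e2, e3, e4⟩ <;>
  rcases hlevel b hb with ⟨g1, k1⟩ | ⟨g1, k1⟩ | ⟨q, g1, g2, g3, g4⟩ | ⟨q, g1, g2, g3, g4⟩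
  · exact hne (e1.trans g1.symm)
  · omega
  · omega
  · omega
  · omega
  · exact hIind a e1 b g1 hab
  · omega
  · omega
  · omega
  · omega
  · have : p = q := by omega
    subst this
    exact hne (e3.trans g3.symm)
  · have : p = q := by omega
    subst this
    have h := hxy p g1 e2 g2
    rw [← e3, ← g3] at h
    omega
  · omega
  · omega
  · have : p = q := by omega
    subst this
    have h := hxy p e1 g2 e2
    rw [← e3, ← g3] at h
    omega
  · have : p = q := by omega
    subst this
    exact hne (e3.trans g3.symm)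

lemma bound_ecc (G : SimpleGraph V) (hG : G.Connected) (v : V) :
    localIndep G v + ecc G v ≤ bipartiteNumber G := by
  obtain ⟨w, _, hw⟩ := Finset.exists_mem_eq_sup Finset.univ ⟨v, Finset.mem_univ v⟩
    (fun u => G.dist v u)
  have hw' : ecc G v = G.dist v w := hw
  have hex : ∀ p, ∃ u, p ≤ G.dist v w → G.dist v u = p := by
    intro p
    by_cases hp : p ≤ G.dist v w
    · obtain ⟨u, hu, _⟩ := exists_on_geo G hG v w p hp
      exact ⟨u, fun _ => hu⟩
    · exact ⟨v, fun h => absurd h hp⟩
  choose x hx using hex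
  have h := main G hG v x (fun _ => v) (G.dist v w) 0 2 (le_refl 2) (fun p hp => hx p hp)
    (by
      intro q hq
      have : q = 0 := by omega
      subst this
      exact SimpleGraph.dist_self)
    (by intro p h1 _ h2; omega)
  rw [hw']
  omega

lemma bound_diam (G : SimpleGraph V) (hG : G.Connected) (v a b : V) (ha : v ≠ a) (hb : v ≠ b)
    (hia : G.dist v a ≤ G.dist a b) :
    localIndep G v + G.dist a b ≤ bipartiteNumber G + 1 := by
  have hpa : 0 < G.dist v a := hG.pos_dist_of_ne ha
  have hpb : 0 < G.dist v b := hG.pos_dist_of_ne hb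
  have htri : G.dist a b ≤ G.dist v a + G.dist v b := by
    have h1 := hG.dist_triangle (u := a) (v := v) (w := b)
    rwa [G.dist_comm (u := a) (v := v)] at h1
  have hexx : ∀ p, ∃ u, p ≤ G.dist v a → G.dist v u = p ∧ G.dist u a = G.dist v a - p := by
    intro p
    by_cases hp : p ≤ G.dist v a
    · obtain ⟨u, hu⟩ := exists_on_geo G hG v a p hp
      exact ⟨u, fun _ => hu⟩
    · exact ⟨v, fun h => absurd h hp⟩
  have hexy : ∀ p, ∃ u, p ≤ G.dist v b → G.dist v u = p ∧ G.dist u b = G.dist v b - p := by
    intro p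
    by_cases hp : p ≤ G.dist v b
    · obtain ⟨u, hu⟩ := exists_on_geo G hG v b p hp
      exact ⟨u, fun _ => hu⟩
    · exact ⟨v, fun h => absurd h hp⟩
  choose x hx using hexx
  choose y hy using hexy
  have h := main G hG v x y (G.dist v a) (G.dist v b)
    (max 2 (G.dist v a + G.dist v b - G.dist a b)) (le_max_left _ _) (fun p hp => (hx p hp).1)
    (fun p hp => (hy p hp).1)
    (by
      intro p hp h1 h2
      have e1 := (hx p h1).2
      have e2 := (hy p h2).2
      have t1 := hG.dist_triangle (u := a) (v := x p) (w := b)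
      have t2 := hG.dist_triangle (u := x p) (v := y p) (w := b)
      rw [G.dist_comm (u := a) (v := x p)] at t1
      omega)
  omega

/-- For every finite connected graph, the largest order of an induced bipartite subgraph is at
least the integer part of the sum of the average eccentricity and the largest independence number
of a neighbourhood. -/
theorem result : ∀ (V : Type) [Fintype V] (G : SimpleGraph V), G.Connected →
    ⌊avgEcc G + (maxLocalIndep G : ℝ)⌋ ≤ (bipartiteNumber G : ℤ) := by
  intro V _ G hG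
  haveI : Nonempty V := hG.nonempty
  obtain ⟨v, _, hv⟩ := Finset.exists_mem_eq_sup Finset.univ Finset.univ_nonempty
    (fun v => localIndep G v)
  have hv' : maxLocalIndep G = localIndep G v := hv
  -- the diameter
  obtain ⟨a, _, ha⟩ := Finset.exists_mem_eq_sup Finset.univ Finset.univ_nonempty
    (fun v => ecc G v)
  have hD : ∀ u, ecc G u ≤ ecc G a := by
    intro u
    rw [← ha]
    exact Finset.le_sup (f := fun v => ecc G v) (Finset.mem_univ u)
  obtain ⟨b, _, hb⟩ := Finset.exists_mem_eq_sup Finset.univ Finset.univ_nonempty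
    (fun u => G.dist a u)
  have hb' : ecc G a = G.dist a b := hb
  have hle : ∀ u w, G.dist u w ≤ ecc G u := fun u w =>
    Finset.le_sup (f := fun u' => G.dist u u') (Finset.mem_univ w)
  have hn : (0 : ℝ) < Fintype.card V := by
    exact_mod_cast Fintype.card_pos
  have hsum : (∑ u, (ecc G u : ℝ)) ≤ Fintype.card V * (ecc G a : ℝ) := by
    calc (∑ u, (ecc G u : ℝ)) ≤ ∑ _u : V, (ecc G a : ℝ) :=
          Finset.sum_le_sum fun u _ => by exact_mod_cast hD u
      _ = Fintype.card V * (ecc G a : ℝ) := by simp
  rw [hv']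
  have h1 := bound_ecc G hG v
  by_cases hcase : ecc G v = ecc G a
  · have hav : avgEcc G ≤ ecc G a := by
      unfold avgEcc
      rw [div_le_iff₀ hn]
      linarith
    rw [hcase] at h1
    have h2 : avgEcc G + (localIndep G v : ℝ) ≤ ((bipartiteNumber G : ℤ) : ℝ) := by
      have : ((localIndep G v + ecc G a : ℕ) : ℝ) ≤ (bipartiteNumber G : ℝ) := by exact_mod_cast h1
      push_cast at this ⊢
      linarith
    exact Int.floor_le_iff.2 (by linarith) 
  · have hlt : (∑ u, (ecc G u : ℝ)) < Fintype.card V * (ecc G a : ℝ) := by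
      calc (∑ u, (ecc G u : ℝ)) < ∑ _u : V, (ecc G a : ℝ) := by
            apply Finset.sum_lt_sum
            · intro u _
              exact_mod_cast hD u
            · refine ⟨v, Finset.mem_univ v, ?_⟩
              have := hD v
              have h : ecc G v < ecc G a := by omega
              exact_mod_cast h
        _ = Fintype.card V * (ecc G a : ℝ) := by simp
    have hav : avgEcc G < ecc G a := by
      unfold avgEcc
      rw [div_lt_iff₀ hn]
      linarith
    have hva : v ≠ a := by
      rintro rfl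
      exact hcase rfl
    have hvb : v ≠ b := by
      rintro rfl
      apply hcase
      have := hle v a
      have h2 := hD v
      rw [G.dist_comm, ← hb'] at this
      omega
    have h2 := bound_diam G hG v a b hva hvb (by
      have := hle v a
      have h3 := hD v
      rw [← hb']
      omega)
    rw [← hb'] at h2
    rw [Int.floor_le_iff]
    have h3 : ((localIndep G v + ecc G a : ℕ) : ℝ) ≤ ((bipartiteNumber G + 1 : ℕ) : ℝ) := by
      exact_mod_cast h2
    push_cast at h3 ⊢
    linarith

end Pool.Agent.Results.MP_b44c21_co.BipartiteBound
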